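import Pool.Agent.H80.Quad.NFold

/-!
# MP_72bf75: the module Ad
-/

set_option autoImplicit false

namespace Pool.Agent.H80.Quad

open Finset Pool.Agent.H63.Quad

/-- The Vandermonde product with coefficients in `ℚ⟦t⟧` as a determinant of monic polynomials. -/
lemma vdm_det (N : ℕ) : MvPolynomial.map (algebraMap ℚ RR) (vdm N) =
    ∑ σ : Equiv.Perm (Fin N), ((Equiv.Perm.sign σ : ℤ) : MvPolynomial (Fin N) RR) *
      ∏ i, Polynomial.aeval (MvPolynomial.X i : MvPolynomial (Fin N) RR) (pp (σ i)) := by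
  have h1 : MvPolynomial.map (algebraMap ℚ RR) (vdm N) =
      (Matrix.vandermonde (fun i : Fin N => (MvPolynomial.X i : MvPolynomial (Fin N) RR))).det := by
    rw [Matrix.det_vandermonde, vdm, map_prod]
    refine prod_congr rfl fun i _ => ?_
    rw [map_prod]
    refine prod_congr rfl fun j _ => ?_
    rw [map_sub, MvPolynomial.map_X, MvPolynomial.map_X]
  have h2 := Matrix.det_eval_matrixOfPolynomials_eq_det_vandermonde
    (fun i : Fin N => (MvPolynomial.X i : MvPolynomial (Fin N) RR))
    (fun i : Fin N => (pp i).map (algebraMap RR (MvPolynomial (Fin N) RR)))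
    (fun i => by rw [(pp_monic i).natDegree_map, pp_deg])
    (fun i => (pp_monic i).map _)
  rw [h1, h2, ← Matrix.det_transpose, Matrix.det_apply']
  refine sum_congr rfl fun σ _ => ?_
  congr 1
  refine prod_congr rfl fun i _ => ?_
  rw [Matrix.transpose_apply, Matrix.of_apply, Polynomial.eval_map_algebraMap]

lemma pp_orth_ne {a b : ℕ} (h : a ≠ b) : LL (pp a * pp b) = 0 := by
  rcases lt_or_gt_of_ne h with h | h
  · rw [pair_pp _ b (by rw [pp_deg]; exact h.le),
      Polynomial.coeff_eq_zero_of_natDegree_lt (by rw [pp_deg]; exact h), zero_mul]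
  · rw [mul_comm, pair_pp _ a (by rw [pp_deg]; exact h.le),
      Polynomial.coeff_eq_zero_of_natDegree_lt (by rw [pp_deg]; exact h), zero_mul]

lemma pp_orth_self (a : ℕ) : LL (pp a * pp a) = he a := by
  rw [pair_pp _ a (pp_deg a).le, pp_coeff, one_mul]

/-- The `N`-fold integral with one extra factor. -/
lemma TN_one_slot (N : ℕ) (l : Fin N) (g : Polynomial RR) (β : ℕ → RR)
    (hg : ∀ j, LL (pp j * pp j * g) = β j * he j) :
    TN N (MvPolynomial.map (algebraMap ℚ RR) (vdm N) ^ 2 *
        Polynomial.aeval (MvPolynomial.X l : MvPolynomial (Fin N) RR) g) =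
      (∑ σ : Equiv.Perm (Fin N), β (σ l)) * ∏ j : Fin N, he j := by
  have key : ∀ σ τ : Equiv.Perm (Fin N),
      TN N ((((Equiv.Perm.sign σ : ℤ) : MvPolynomial (Fin N) RR) *
          ∏ i, Polynomial.aeval (MvPolynomial.X i : MvPolynomial (Fin N) RR) (pp (σ i))) *
        (((Equiv.Perm.sign τ : ℤ) : MvPolynomial (Fin N) RR) *
          ∏ i, Polynomial.aeval (MvPolynomial.X i : MvPolynomial (Fin N) RR) (pp (τ i))) *
        Polynomial.aeval (MvPolynomial.X l : MvPolynomial (Fin N) RR) g) =
      if σ = τ then β (σ l) * ∏ j : Fin N, he j else 0 := by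
    intro σ τ
    have e : ((((Equiv.Perm.sign σ : ℤ) : MvPolynomial (Fin N) RR) *
          ∏ i, Polynomial.aeval (MvPolynomial.X i : MvPolynomial (Fin N) RR) (pp (σ i))) *
        (((Equiv.Perm.sign τ : ℤ) : MvPolynomial (Fin N) RR) *
          ∏ i, Polynomial.aeval (MvPolynomial.X i : MvPolynomial (Fin N) RR) (pp (τ i))) *
        Polynomial.aeval (MvPolynomial.X l : MvPolynomial (Fin N) RR) g) =
        (((Equiv.Perm.sign σ : ℤ) * (Equiv.Perm.sign τ : ℤ) : ℤ) : RR) •
          ∏ i, Polynomial.aeval (MvPolynomial.X i : MvPolynomial (Fin N) RR)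
            (pp (σ i) * pp (τ i) * (if i = l then g else 1)) := by
      have e1 : ∏ i, Polynomial.aeval (MvPolynomial.X i : MvPolynomial (Fin N) RR)
            (pp (σ i) * pp (τ i) * (if i = l then g else 1)) =
          (∏ i, Polynomial.aeval (MvPolynomial.X i : MvPolynomial (Fin N) RR) (pp (σ i))) *
          (∏ i, Polynomial.aeval (MvPolynomial.X i : MvPolynomial (Fin N) RR) (pp (τ i))) *
          Polynomial.aeval (MvPolynomial.X l : MvPolynomial (Fin N) RR) g := by
        simp only [map_mul, prod_mul_distrib]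
        congr 1
        rw [Finset.prod_eq_single l]
        · rw [if_pos rfl]
        · intro b _ hb
          rw [if_neg hb, map_one]
        · intro h
          exact absurd (mem_univ l) h
      rw [e1, Int.cast_smul_eq_zsmul, zsmul_eq_mul]
      push_cast
      ring
    rw [e, map_smul, TN_prod]
    by_cases h : σ = τ
    · subst h
      rw [if_pos rfl]
      have hs : ((Equiv.Perm.sign σ : ℤ) * (Equiv.Perm.sign σ : ℤ) : ℤ) = 1 := by
        rw [← Units.val_mul, Int.units_mul_self, Units.val_one]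
      rw [hs, Int.cast_one, one_smul]
      rw [← mul_prod_erase univ _ (mem_univ l), if_pos rfl, hg]
      have h2 : ∀ i ∈ univ.erase l, LL (pp (σ i) * pp (σ i) * (if i = l then g else 1)) =
          he (σ i) := by
        intro i hi
        rw [if_neg (ne_of_mem_erase hi), mul_one, pp_orth_self]
      rw [prod_congr rfl h2, mul_assoc, mul_prod_erase univ (fun i => he (σ i)) (mem_univ l),
        Equiv.prod_comp σ (fun j : Fin N => he j)]
    · rw [if_neg h]
      have : ∃ i, i ≠ l ∧ σ i ≠ τ i := by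
        by_contra hcon
        push Not at hcon
        apply h
        ext i
        by_cases hi : i = l
        · subst hi
          by_contra hne
          have hne' : σ i ≠ τ i := fun h => hne (congrArg _ h)
          have h3 := hcon (τ.symm (σ i))
          have h4 : τ.symm (σ i) ≠ i := by
            intro h5
            apply hne'
            rw [← h5, Equiv.apply_symm_apply, h5]
          have h5 := h3 h4
          rw [Equiv.apply_symm_apply] at h5
          exact h4 (σ.injective h5)
        · exact congrArg _ (hcon i hi)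
      obtain ⟨i, hi, hne⟩ := this
      rw [Finset.prod_eq_zero (mem_univ i), smul_zero]
      rw [if_neg hi, mul_one, pp_orth_ne (fun h => hne (Fin.ext h))]
  rw [vdm_det, sq, sum_mul_sum, sum_mul, map_sum, sum_mul]
  refine sum_congr rfl fun σ _ => ?_
  rw [sum_mul, map_sum, sum_congr rfl (fun τ _ => key σ τ)]
  simp

lemma TN_vdm (N : ℕ) (hN : 1 ≤ N) :
    TN N (MvPolynomial.map (algebraMap ℚ RR) (vdm N) ^ 2) =
      (N.factorial : RR) * ∏ j : Fin N, he j := by
  have h := TN_one_slot N ⟨0, hN⟩ 1 (fun _ => 1) (fun j => by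
    rw [mul_one, pp_orth_self, one_mul])
  rw [map_one, mul_one] at h
  rw [h]
  simp [Fintype.card_perm]

lemma TN_vdm_ps (N : ℕ) :
    TN N (MvPolynomial.map (algebraMap ℚ RR) (vdm N ^ 2 * ps N 1)) =
      MN N * ((N.factorial : RR) * ∏ j : Fin N, he j) := by
  have h1 : MvPolynomial.map (algebraMap ℚ RR) (vdm N ^ 2 * ps N 1) =
      ∑ l : Fin N, MvPolynomial.map (algebraMap ℚ RR) (vdm N) ^ 2 *
        Polynomial.aeval (MvPolynomial.X l : MvPolynomial (Fin N) RR)
          (Polynomial.X : Polynomial RR) := by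
    rw [map_mul, map_pow, ps, map_sum, mul_sum]
    refine sum_congr rfl fun l _ => ?_
    rw [Polynomial.aeval_X, pow_one, MvPolynomial.map_X]
  have hb : ∀ j, LL (pp j * pp j * Polynomial.X) = (rr (2 * j) + rr (2 * j + 1)) * he j := by
    intro j
    have e : pp j * pp j * Polynomial.X = Polynomial.X * pp j * pp j := by ring
    rw [e, x_pp_pp, add_comm (rr (2 * j))]
  rw [h1, map_sum, sum_congr rfl (fun l _ => TN_one_slot N l Polynomial.X
    (fun j => rr (2 * j) + rr (2 * j + 1)) hb), ← sum_mul, ← mul_assoc]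
  congr 1
  rw [sum_comm]
  have h2 : ∀ σ : Equiv.Perm (Fin N), ∑ l : Fin N, (rr (2 * (σ l : ℕ)) + rr (2 * (σ l : ℕ) + 1)) =
      MN N := by
    intro σ
    rw [Equiv.sum_comp σ (fun j : Fin N => rr (2 * (j : ℕ)) + rr (2 * (j : ℕ) + 1)),
      Fin.sum_univ_eq_sum_range (fun j => rr (2 * j) + rr (2 * j + 1)), MN]
    clear σ h1
    induction N with
    | zero => simp
    | succ N ih =>
      rw [sum_range_succ, ih, show 2 * (N + 1) = 2 * N + 1 + 1 by ring, sum_range_succ,
        sum_range_succ, rr_eq_rs, rr_eq_rs, add_assoc]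
  rw [sum_congr rfl (fun σ _ => h2 σ)]
  simp [Fintype.card_perm, mul_comm]

lemma ZN_eq (N : ℕ) (hN : 1 ≤ N) : ZN N = (N.factorial : RR) * ∏ j : Fin N, he j := by
  rw [← TN_vdm N hN, ← map_pow, TN_map]
  ext n
  rw [coeff_tau, ZN, PowerSeries.coeff_mk, Ev, mul_comm (vdm N ^ 2)]

/-- The module Ad: first moment of the deformed Laguerre ensemble. -/
theorem Ad {N : ℕ} (hN : 1 ≤ N) :
    PowerSeries.mk (fun n => Ev N (ps N 1 * ps N 2 ^ n) / (2 ^ n * n.factorial)) =
      MN N * ZN N := by
  rw [ZN_eq N hN, ← TN_vdm_ps, TN_map]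
  ext n
  rw [coeff_tau, PowerSeries.coeff_mk, Ev]
  congr 2
  ring

/-- The normalisation of the Laguerre ensemble. -/
theorem Ev_one {N : ℕ} (hN : 1 ≤ N) :
    Ev N 1 = (N.factorial : ℚ) * ∏ j : Fin N, ((j : ℕ).factorial : ℚ) ^ 2 := by
  have h := congrArg PowerSeries.constantCoeff (ZN_eq N hN)
  rw [map_mul, map_natCast, map_prod] at h
  simp only [he_const] at h
  rw [← h, ← PowerSeries.coeff_zero_eq_constantCoeff_apply, ZN, PowerSeries.coeff_mk]
  simp

theorem Ev_one_pos {N : ℕ} (hN : 1 ≤ N) : 0 < Ev N 1 := by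
  rw [Ev_one hN]
  have h0 : (0 : ℚ) < (N.factorial : ℚ) := by exact_mod_cast Nat.factorial_pos N
  refine mul_pos h0 (Finset.prod_pos fun j _ => ?_)
  have h1 : (0 : ℚ) < ((j : ℕ).factorial : ℚ) := by exact_mod_cast Nat.factorial_pos _
  positivity

end Pool.Agent.H80.Quad
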