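import Pool.Agent.H80.Quad.OP

/-!
# MP_72bf75: the N-fold functional, Vandermonde determinants
-/

set_option autoImplicit false

namespace Pool.Agent.H80.Quad

open Finset Pool.Agent.H63.Quad

/-- The `N`-fold functional with coefficients in `ℚ⟦t⟧`. -/
noncomputable def TN (N : ℕ) : MvPolynomial (Fin N) RR →ₗ[RR] RR :=
  (MvPolynomial.basisMonomials (Fin N) RR).constr RR fun a => ∏ i, mu (a i)

lemma TN_monomial (N : ℕ) (a : Fin N →₀ ℕ) : TN N (MvPolynomial.monomial a 1) = ∏ i, mu (a i) := by
  unfold TN
  have h : (MvPolynomial.monomial a 1 : MvPolynomial (Fin N) RR) =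
      MvPolynomial.basisMonomials (Fin N) RR a := by
    rw [MvPolynomial.coe_basisMonomials]
  rw [h, Module.Basis.constr_basis]

lemma Lam_monomial (N : ℕ) (a : Fin N →₀ ℕ) : Lam N (MvPolynomial.monomial a 1) =
    ((∏ i, (a i).factorial : ℕ) : ℚ) := by
  unfold Lam
  have h : (MvPolynomial.monomial a 1 : MvPolynomial (Fin N) ℚ) =
      MvPolynomial.basisMonomials (Fin N) ℚ a := by
    rw [MvPolynomial.coe_basisMonomials]
  rw [h, Module.Basis.constr_basis]

/-- The functional is a product functional. -/
lemma TN_prod (N : ℕ) (f : Fin N → Polynomial RR) :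
    TN N (∏ i, Polynomial.aeval (MvPolynomial.X i) (f i)) = ∏ i, LL (f i) := by
  let A : MultilinearMap RR (fun _ : Fin N => Polynomial RR) RR :=
    (TN N).compMultilinearMap
      ((MultilinearMap.mkPiAlgebra RR (Fin N) (MvPolynomial (Fin N) RR)).compLinearMap
        (fun i => (Polynomial.aeval (R := RR) (MvPolynomial.X i : MvPolynomial (Fin N) RR)).toLinearMap))
  let B : MultilinearMap RR (fun _ : Fin N => Polynomial RR) RR :=
    (MultilinearMap.mkPiAlgebra RR (Fin N) RR).compLinearMap (fun _ => LL)
  have hA : A f = TN N (∏ i, Polynomial.aeval (MvPolynomial.X i) (f i)) := by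
    simp [A, MultilinearMap.compLinearMap_apply, MultilinearMap.mkPiAlgebra_apply]
  have hB : B f = ∏ i, LL (f i) := by
    simp [B, MultilinearMap.compLinearMap_apply, MultilinearMap.mkPiAlgebra_apply]
  rw [← hA, ← hB]
  have hAB : A = B := by
    refine Module.Basis.ext_multilinear (fun _ => Polynomial.basisMonomials RR) fun v => ?_
    have h1 : ∀ n : ℕ, (Polynomial.basisMonomials RR) n = Polynomial.X ^ n := fun n => by
      rw [Polynomial.coe_basisMonomials, ← Polynomial.monomial_one_right_eq_X_pow]
    simp only [A, B, LinearMap.compMultilinearMap_apply, MultilinearMap.compLinearMap_apply,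
      MultilinearMap.mkPiAlgebra_apply, h1, AlgHom.toLinearMap_apply, map_pow, Polynomial.aeval_X,
      LL_X_pow]
    have h2 : (∏ i, (MvPolynomial.X i : MvPolynomial (Fin N) RR) ^ (v i)) =
        MvPolynomial.monomial (Finsupp.equivFunOnFinite.symm v) 1 := by
      rw [MvPolynomial.monomial_eq, Finsupp.prod_fintype _ _ (fun i => pow_zero _)]
      simp
    rw [h2, TN_monomial]
    simp
  rw [hAB]

/-- The rational version of `TN`. -/
noncomputable def tau (N : ℕ) : MvPolynomial (Fin N) ℚ →ₗ[ℚ] RR :=
  (MvPolynomial.basisMonomials (Fin N) ℚ).constr ℚ fun a => ∏ i, mu (a i)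

lemma tau_monomial (N : ℕ) (a : Fin N →₀ ℕ) :
    tau N (MvPolynomial.monomial a 1) = ∏ i, mu (a i) := by
  unfold tau
  have h : (MvPolynomial.monomial a 1 : MvPolynomial (Fin N) ℚ) =
      MvPolynomial.basisMonomials (Fin N) ℚ a := by
    rw [MvPolynomial.coe_basisMonomials]
  rw [h, Module.Basis.constr_basis]

lemma TN_map (N : ℕ) (F : MvPolynomial (Fin N) ℚ) :
    TN N (MvPolynomial.map (algebraMap ℚ RR) F) = tau N F := by
  induction F using MvPolynomial.induction_on' with
  | add f g hf hg => rw [map_add, map_add, map_add, hf, hg]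
  | monomial a c =>
    have h1 : (MvPolynomial.monomial a c : MvPolynomial (Fin N) ℚ) =
        c • MvPolynomial.monomial a 1 := by
      rw [MvPolynomial.smul_monomial, smul_eq_mul, mul_one]
    have h2 : MvPolynomial.map (algebraMap ℚ RR) (MvPolynomial.monomial a c) =
        (algebraMap ℚ RR c) • MvPolynomial.monomial a 1 := by
      rw [MvPolynomial.map_monomial, MvPolynomial.smul_monomial, smul_eq_mul, mul_one]
    rw [h2, map_smul, TN_monomial, h1, map_smul, tau_monomial, smul_eq_mul, Algebra.smul_def]

lemma two_deriv_mu (j : ℕ) : 2 * PowerSeries.derivative ℚ (mu j) = mu (j + 2) := by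
  ext m
  have h2 : (2 : RR) = PowerSeries.C (2 : ℚ) := (map_ofNat PowerSeries.C 2).symm
  rw [h2, PowerSeries.coeff_C_mul, PowerSeries.coeff_derivative, coeff_mu, coeff_mu]
  have h1 : j + 2 * (m + 1) = j + 2 + 2 * m := by ring
  have h3 : (m.factorial : ℚ) ≠ 0 := by exact_mod_cast Nat.factorial_ne_zero m
  have h4 : ((m : ℚ) + 1) ≠ 0 := by positivity
  rw [h1, Nat.factorial_succ m, pow_succ]
  push_cast
  field_simp

lemma deriv_prod {ι : Type} [DecidableEq ι] (s : Finset ι) (f : ι → RR) :
    PowerSeries.derivative ℚ (∏ i ∈ s, f i) =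
      ∑ i ∈ s, (∏ j ∈ s.erase i, f j) * PowerSeries.derivative ℚ (f i) := by
  induction s using Finset.induction_on with
  | empty => simp
  | insert a s ha ih =>
    rw [prod_insert ha, Derivation.leibniz, ih, sum_insert ha, erase_insert ha, smul_eq_mul,
      smul_eq_mul, add_comm, mul_sum]
    congr 1
    refine sum_congr rfl fun i hi => ?_
    have hia : a ≠ i := fun h => ha (h ▸ hi)
    rw [erase_insert_of_ne hia, prod_insert (fun h => ha (mem_of_mem_erase h))]
    ring

lemma tau_ps (N : ℕ) (F : MvPolynomial (Fin N) ℚ) :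
    tau N (ps N 2 * F) = 2 * PowerSeries.derivative ℚ (tau N F) := by
  have hlin : (tau N).comp (LinearMap.mulLeft ℚ (ps N 2)) =
      (LinearMap.mulLeft ℚ (2 : RR)).comp
        (((PowerSeries.derivative ℚ : Derivation ℚ RR RR) : RR →ₗ[ℚ] RR).comp (tau N)) := by
    refine (MvPolynomial.basisMonomials (Fin N) ℚ).ext fun a => ?_
    rw [MvPolynomial.coe_basisMonomials]
    simp only [LinearMap.comp_apply, LinearMap.mulLeft_apply]
    change tau N (ps N 2 * MvPolynomial.monomial a 1) =
      2 * PowerSeries.derivative ℚ (tau N (MvPolynomial.monomial a 1))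
    rw [tau_monomial, deriv_prod, mul_sum, ps, sum_mul, map_sum]
    refine sum_congr rfl fun i _ => ?_
    have h1 : (MvPolynomial.X i ^ 2 * MvPolynomial.monomial a 1 : MvPolynomial (Fin N) ℚ) =
        MvPolynomial.monomial (Finsupp.single i 2 + a) 1 := by
      rw [MvPolynomial.X_pow_eq_monomial, MvPolynomial.monomial_mul, mul_one]
    rw [h1, tau_monomial, ← mul_prod_erase univ _ (mem_univ i)]
    have h2 : ∀ j ∈ univ.erase i, mu ((Finsupp.single i 2 + a : Fin N →₀ ℕ) j) = mu (a j) := by
      intro j hj
      have : j ≠ i := ne_of_mem_erase hj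
      rw [Finsupp.add_apply, Finsupp.single_eq_of_ne this, zero_add]
    rw [prod_congr rfl h2, Finsupp.add_apply, Finsupp.single_eq_same, add_comm 2,
      ← two_deriv_mu]
    ring
  exact congrArg (fun f => f F) hlin

lemma coeff_tau (N : ℕ) (n : ℕ) : ∀ F : MvPolynomial (Fin N) ℚ,
    PowerSeries.coeff n (tau N F) = Lam N (ps N 2 ^ n * F) / (2 ^ n * n.factorial) := by
  induction n with
  | zero =>
    intro F
    have hlin : (PowerSeries.coeff (R := ℚ) 0).comp (tau N) = Lam N := by
      refine (MvPolynomial.basisMonomials (Fin N) ℚ).ext fun a => ?_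
      rw [MvPolynomial.coe_basisMonomials]
      change PowerSeries.coeff 0 (tau N (MvPolynomial.monomial a 1)) =
        Lam N (MvPolynomial.monomial a 1)
      rw [tau_monomial, Lam_monomial, PowerSeries.coeff_zero_eq_constantCoeff_apply, map_prod]
      simp only [constantCoeff_mu]
      push_cast
      rfl
    have := congrArg (fun f => f F) hlin
    simp only [LinearMap.comp_apply] at this
    rw [this]
    simp
  | succ n ih =>
    intro F
    have h := congrArg (PowerSeries.coeff n) (tau_ps N F)
    have h2 : (2 : RR) = PowerSeries.C (2 : ℚ) := (map_ofNat PowerSeries.C 2).symm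
    rw [ih, h2, PowerSeries.coeff_C_mul, PowerSeries.coeff_derivative] at h
    have e : ps N 2 ^ (n + 1) * F = ps N 2 ^ n * (ps N 2 * F) := by ring
    have h3 : (n.factorial : ℚ) ≠ 0 := by exact_mod_cast Nat.factorial_ne_zero n
    have h4 : ((n : ℚ) + 1) ≠ 0 := by positivity
    rw [e, Nat.factorial_succ n]
    push_cast
    field_simp at h ⊢
    linear_combination -h

end Pool.Agent.H80.Quad
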