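import Pool.Agent.H63.Quad.Defs

/-!
# MP_72bf75: orthogonal polynomials for the weight `exp (-x + t x^2 / 2)` on the half line

`LL` is the functional `f ↦ ∫ f exp (-x + t x^2/2)` on polynomials with coefficients in `ℚ⟦t⟧`,
`pp j` its monic orthogonal polynomials, `qq j` those of the weight multiplied by `x`.
-/

set_option autoImplicit false

namespace Pool.Agent.H80.Quad

open Finset Pool.Agent.H63.Quad

/-- Power series over the rationals. -/
abbrev RR : Type := PowerSeries ℚ

/-- The moments. -/
noncomputable def mu (j : ℕ) : RR :=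
  PowerSeries.mk fun m => ((j + 2 * m).factorial : ℚ) / (2 ^ m * m.factorial)

lemma coeff_mu (j m : ℕ) : PowerSeries.coeff m (mu j) =
    ((j + 2 * m).factorial : ℚ) / (2 ^ m * m.factorial) := by
  simp [mu]

lemma constantCoeff_mu (j : ℕ) : PowerSeries.constantCoeff (mu j) = (j.factorial : ℚ) := by
  rw [← PowerSeries.coeff_zero_eq_constantCoeff_apply, coeff_mu]
  simp

/-- The Pearson equation for the moments. -/
lemma mu_rec (j : ℕ) : ((j + 1 : ℕ) : RR) * mu j = mu (j + 1) - PowerSeries.X * mu (j + 2) := by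
  ext m
  have hc : ((j + 1 : ℕ) : RR) = PowerSeries.C ((j + 1 : ℕ) : ℚ) := by simp
  rw [hc, PowerSeries.coeff_C_mul, map_sub]
  cases m with
  | zero =>
    rw [PowerSeries.coeff_zero_X_mul, coeff_mu, coeff_mu]
    simp [Nat.factorial_succ]
  | succ m =>
    rw [PowerSeries.coeff_succ_X_mul, coeff_mu, coeff_mu, coeff_mu]
    have h1 : j + 1 + 2 * (m + 1) = (j + 2 * (m + 1)) + 1 := by ring
    have h2 : j + 2 + 2 * m = j + 2 * (m + 1) := by ring
    rw [h1, h2, Nat.factorial_succ (j + 2 * (m + 1)), Nat.factorial_succ m]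
    have h3 : (m.factorial : ℚ) ≠ 0 := by exact_mod_cast Nat.factorial_ne_zero m
    have h4 : ((m : ℚ) + 1) ≠ 0 := by positivity
    push_cast
    field_simp
    ring

/-- The functional. -/
noncomputable def LL : Polynomial RR →ₗ[RR] RR :=
  (Polynomial.basisMonomials RR).constr RR mu

lemma LL_X_pow (j : ℕ) : LL (Polynomial.X ^ j) = mu j := by
  unfold LL
  have h : (Polynomial.X ^ j : Polynomial RR) = Polynomial.basisMonomials RR j := by
    rw [Polynomial.coe_basisMonomials, ← Polynomial.monomial_one_right_eq_X_pow]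
  rw [h, Module.Basis.constr_basis]

lemma LL_C_mul (c : RR) (f : Polynomial RR) : LL (Polynomial.C c * f) = c * LL f := by
  rw [← Polynomial.smul_eq_C_mul, map_smul, smul_eq_mul]

/-- The Pearson equation. -/
lemma pearson (f : Polynomial RR) : LL (f + Polynomial.X * Polynomial.derivative f) =
    LL (Polynomial.X * f) - PowerSeries.X * LL (Polynomial.X ^ 2 * f) := by
  induction f using Polynomial.induction_on' with
  | add f g hf hg =>
    have h1 : f + g + Polynomial.X * Polynomial.derivative (f + g) =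
        (f + Polynomial.X * Polynomial.derivative f) +
          (g + Polynomial.X * Polynomial.derivative g) := by
      rw [Polynomial.derivative_add]; ring
    rw [h1, map_add, hf, hg, mul_add, mul_add, map_add, map_add]
    ring
  | monomial n a =>
    rw [← Polynomial.C_mul_X_pow_eq_monomial]
    have h1 : Polynomial.C a * Polynomial.X ^ n + Polynomial.X *
        Polynomial.derivative (Polynomial.C a * Polynomial.X ^ n) =
        Polynomial.C (a * ((n + 1 : ℕ) : RR)) * Polynomial.X ^ n := by
      cases n with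
      | zero => simp
      | succ n =>
        rw [Polynomial.derivative_C_mul_X_pow]
        simp only [Nat.add_sub_cancel, map_mul, Polynomial.C_eq_natCast]
        push_cast
        ring
    have h2 : Polynomial.X * (Polynomial.C a * Polynomial.X ^ n) =
        Polynomial.C a * (Polynomial.X ^ (n + 1)) := by ring
    have h3 : Polynomial.X ^ 2 * (Polynomial.C a * Polynomial.X ^ n) =
        Polynomial.C a * (Polynomial.X ^ (n + 2)) := by ring
    rw [h1, h2, h3, LL_C_mul, LL_C_mul, LL_C_mul, LL_X_pow, LL_X_pow, LL_X_pow, mul_assoc, mu_rec]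
    ring

mutual
/-- The monic orthogonal polynomials of the functional `LL`. -/
noncomputable def pp : ℕ → Polynomial RR
  | 0 => 1
  | j + 1 => Polynomial.X * qq j - Polynomial.C (LL (Polynomial.X ^ j * (Polynomial.X * qq j)) *
      (LL (Polynomial.X ^ j * pp j))⁻¹) * pp j
/-- The monic orthogonal polynomials of the functional `f ↦ LL (x f)`. -/
noncomputable def qq : ℕ → Polynomial RR
  | 0 => 1
  | j + 1 => pp (j + 1) - Polynomial.C (LL (Polynomial.X ^ (j + 1) * pp (j + 1)) *
      (LL (Polynomial.X ^ j * (Polynomial.X * qq j)))⁻¹) * qq j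
end

/-- The norms of even index. -/
noncomputable def he (j : ℕ) : RR := LL (Polynomial.X ^ j * pp j)

/-- The norms of odd index. -/
noncomputable def ho (j : ℕ) : RR := LL (Polynomial.X ^ j * (Polynomial.X * qq j))

lemma pp_zero : pp 0 = 1 := by rw [pp]

lemma qq_zero : qq 0 = 1 := by rw [qq]

lemma pp_succ (j : ℕ) : pp (j + 1) = Polynomial.X * qq j -
    Polynomial.C (ho j * (he j)⁻¹) * pp j := by
  rw [pp]; rfl

lemma qq_succ (j : ℕ) : qq (j + 1) = pp (j + 1) -
    Polynomial.C (he (j + 1) * (ho j)⁻¹) * qq j := by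
  rw [qq]; rfl

lemma monic_pair (j : ℕ) : ((pp j).Monic ∧ (pp j).natDegree = j) ∧
    ((qq j).Monic ∧ (qq j).natDegree = j) := by
  induction j with
  | zero =>
    rw [pp_zero, qq_zero]
    exact ⟨⟨Polynomial.monic_one, Polynomial.natDegree_one⟩,
      ⟨Polynomial.monic_one, Polynomial.natDegree_one⟩⟩
  | succ j ih =>
    obtain ⟨⟨hp, hpd⟩, hq, hqd⟩ := ih
    have h1 : (Polynomial.X * qq j).Monic := Polynomial.monic_X.mul hq
    have h2 : (Polynomial.X * qq j).natDegree = j + 1 := by
      rw [Polynomial.monic_X.natDegree_mul hq, Polynomial.natDegree_X, hqd, add_comm]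
    have h3 : (Polynomial.C (ho j * (he j)⁻¹) * pp j).natDegree < j + 1 :=
      lt_of_le_of_lt (Polynomial.natDegree_C_mul_le _ _) (by omega)
    have hd3 : (Polynomial.C (ho j * (he j)⁻¹) * pp j).degree < (Polynomial.X * qq j).degree := by
      rw [Polynomial.degree_eq_natDegree h1.ne_zero, h2]
      exact lt_of_le_of_lt Polynomial.degree_le_natDegree (by exact_mod_cast h3)
    have hP : (pp (j + 1)).Monic := by
      rw [pp_succ]
      exact h1.sub_of_left hd3
    have hPd : (pp (j + 1)).natDegree = j + 1 := by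
      rw [pp_succ, Polynomial.natDegree_sub_eq_left_of_natDegree_lt (by rw [h2]; exact h3), h2]
    have h4 : (Polynomial.C (he (j + 1) * (ho j)⁻¹) * qq j).natDegree < j + 1 :=
      lt_of_le_of_lt (Polynomial.natDegree_C_mul_le _ _) (by omega)
    have hd4 : (Polynomial.C (he (j + 1) * (ho j)⁻¹) * qq j).degree < (pp (j + 1)).degree := by
      rw [Polynomial.degree_eq_natDegree hP.ne_zero, hPd]
      exact lt_of_le_of_lt Polynomial.degree_le_natDegree (by exact_mod_cast h4)
    refine ⟨⟨hP, hPd⟩, ?_, ?_⟩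
    · rw [qq_succ]
      exact hP.sub_of_left hd4
    · rw [qq_succ, Polynomial.natDegree_sub_eq_left_of_natDegree_lt (by rw [hPd]; exact h4), hPd]

lemma pp_monic (j : ℕ) : (pp j).Monic := (monic_pair j).1.1

lemma pp_deg (j : ℕ) : (pp j).natDegree = j := (monic_pair j).1.2

lemma qq_monic (j : ℕ) : (qq j).Monic := (monic_pair j).2.1

lemma qq_deg (j : ℕ) : (qq j).natDegree = j := (monic_pair j).2.2

/-- Pairing with a polynomial of small degree. -/
lemma pair_low (G : Polynomial RR) (j : ℕ)
    (hG : ∀ i < j, LL (Polynomial.X ^ i * G) = 0) (f : Polynomial RR) (hf : f.natDegree ≤ j) :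
    LL (f * G) = f.coeff j * LL (Polynomial.X ^ j * G) := by
  have h := Polynomial.as_sum_range_C_mul_X_pow' (n := j + 1) f (by omega)
  conv_lhs => rw [h]
  rw [Finset.sum_mul, map_sum, Finset.sum_range_succ, Finset.sum_eq_zero, zero_add]
  · rw [mul_assoc, LL_C_mul]
  · intro i hi
    rw [mul_assoc, LL_C_mul, hG i (mem_range.1 hi), mul_zero]

lemma pair_zero (G : Polynomial RR) (j : ℕ)
    (hG : ∀ i < j, LL (Polynomial.X ^ i * G) = 0) (f : Polynomial RR) (hf : f.natDegree < j) :
    LL (f * G) = 0 := by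
  rw [pair_low G j hG f hf.le, Polynomial.coeff_eq_zero_of_natDegree_lt hf, zero_mul]

/-- Leading coefficient computations. -/
lemma coeff_add_X_deriv (f : Polynomial RR) (j : ℕ) (hf : f.Monic) (hd : f.natDegree = j) :
    (f + Polynomial.X * Polynomial.derivative f).coeff j = ((j + 1 : ℕ) : RR) := by
  have h1 : f.coeff j = 1 := by rw [← hd]; exact hf
  rw [Polynomial.coeff_add, h1]
  cases j with
  | zero => simp
  | succ j =>
    rw [Polynomial.coeff_X_mul, Polynomial.coeff_derivative, h1]
    push_cast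
    ring

lemma natDegree_add_X_deriv (f : Polynomial RR) (j : ℕ) (hd : f.natDegree ≤ j) :
    (f + Polynomial.X * Polynomial.derivative f).natDegree ≤ j := by
  refine Polynomial.natDegree_add_le_of_degree_le hd ?_
  by_cases h0 : j = 0
  · have : f = Polynomial.C (f.coeff 0) := Polynomial.eq_C_of_natDegree_le_zero (by omega)
    rw [this]
    simp
  · refine le_trans Polynomial.natDegree_mul_le ?_
    have h1 := Polynomial.natDegree_derivative_le f
    have h2 : (Polynomial.X : Polynomial RR).natDegree = 1 := Polynomial.natDegree_X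
    omega

lemma natDegree_deriv_lt (f : Polynomial RR) (j : ℕ) (hd : f.natDegree = j + 1) :
    (Polynomial.derivative f).natDegree ≤ j := by
  have h1 := Polynomial.natDegree_derivative_le f
  omega

lemma coeff_deriv (f : Polynomial RR) (j : ℕ) (hf : f.Monic) (hd : f.natDegree = j + 1) :
    (Polynomial.derivative f).coeff j = ((j + 1 : ℕ) : RR) := by
  have h1 : f.coeff (j + 1) = 1 := by rw [← hd]; exact hf
  rw [Polynomial.coeff_derivative, h1]
  push_cast
  ring

/-- Pearson equation for `qq j * pp (j + 1)`. -/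
lemma pearson_even (j : ℕ) (hA : ∀ i < j + 1, LL (Polynomial.X ^ i * pp (j + 1)) = 0)
    (hB : ∀ i < j, LL (Polynomial.X ^ i * (Polynomial.X * qq j)) = 0) :
    ((j + 1 : ℕ) : RR) * ho j = he (j + 1) -
      PowerSeries.X * LL (Polynomial.X ^ 2 * (qq j * pp (j + 1))) := by
  have h := pearson (qq j * pp (j + 1))
  have e1 : qq j * pp (j + 1) + Polynomial.X * Polynomial.derivative (qq j * pp (j + 1)) =
      (qq j + Polynomial.X * Polynomial.derivative (qq j)) * pp (j + 1) +
        Polynomial.derivative (pp (j + 1)) * (Polynomial.X * qq j) := by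
    rw [Polynomial.derivative_mul]; ring
  have e2 : Polynomial.X * (qq j * pp (j + 1)) = (Polynomial.X * qq j) * pp (j + 1) := by ring
  rw [e1, map_add, e2] at h
  rw [pair_zero (pp (j + 1)) (j + 1) hA _
      (lt_of_le_of_lt (natDegree_add_X_deriv (qq j) j (qq_deg j).le) (by omega)), zero_add,
    pair_low (Polynomial.X * qq j) j hB _ (natDegree_deriv_lt _ j (pp_deg (j + 1))),
    coeff_deriv _ j (pp_monic (j + 1)) (pp_deg (j + 1)),
    pair_low (pp (j + 1)) (j + 1) hA (Polynomial.X * qq j)
      (by rw [Polynomial.monic_X.natDegree_mul (qq_monic j), Polynomial.natDegree_X, qq_deg]; omega),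
    Polynomial.coeff_X_mul] at h
  have h1 : (qq j).coeff j = 1 := by
    have := qq_monic j
    unfold Polynomial.Monic Polynomial.leadingCoeff at this
    rwa [qq_deg] at this
  rw [h1, one_mul] at h
  exact h

/-- Pearson equation for `qq j * pp j`. -/
lemma pearson_odd (j : ℕ) (hA : ∀ i < j, LL (Polynomial.X ^ i * pp j) = 0)
    (hB : ∀ i < j, LL (Polynomial.X ^ i * (Polynomial.X * qq j)) = 0) :
    ((j + 1 : ℕ) : RR) * he j = ho j -
      PowerSeries.X * LL (Polynomial.X ^ 2 * (qq j * pp j)) := by
  have h := pearson (qq j * pp j)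
  have e1 : qq j * pp j + Polynomial.X * Polynomial.derivative (qq j * pp j) =
      (qq j + Polynomial.X * Polynomial.derivative (qq j)) * pp j +
        Polynomial.derivative (pp j) * (Polynomial.X * qq j) := by
    rw [Polynomial.derivative_mul]; ring
  have e2 : Polynomial.X * (qq j * pp j) = pp j * (Polynomial.X * qq j) := by ring
  have h0 : LL (Polynomial.derivative (pp j) * (Polynomial.X * qq j)) = 0 := by
    cases j with
    | zero => rw [pp_zero]; simp
    | succ j =>
      exact pair_zero _ (j + 1) hB _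
        (lt_of_le_of_lt (natDegree_deriv_lt _ j (pp_deg (j + 1))) (by omega))
  have h1 : (pp j).coeff j = 1 := by
    have := pp_monic j
    unfold Polynomial.Monic Polynomial.leadingCoeff at this
    rwa [pp_deg] at this
  rw [e1, map_add, e2, h0, add_zero,
    pair_low (pp j) j hA _ (natDegree_add_X_deriv (qq j) j (qq_deg j).le),
    coeff_add_X_deriv _ j (qq_monic j) (qq_deg j),
    pair_low (Polynomial.X * qq j) j hB (pp j) (pp_deg j).le, h1, one_mul] at h
  exact h

lemma op_main (j : ℕ) : (∀ i < j, LL (Polynomial.X ^ i * pp j) = 0) ∧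
    (∀ i < j, LL (Polynomial.X ^ i * (Polynomial.X * qq j)) = 0) ∧
    PowerSeries.constantCoeff (he j) = (j.factorial : ℚ) ^ 2 ∧
    PowerSeries.constantCoeff (ho j) = (j.factorial : ℚ) ^ 2 * (j + 1) := by
  induction j with
  | zero =>
    refine ⟨fun i hi => absurd hi (Nat.not_lt_zero i), fun i hi => absurd hi (Nat.not_lt_zero i),
      ?_, ?_⟩
    · unfold he
      rw [pp_zero, mul_one, LL_X_pow, constantCoeff_mu]
      simp
    · unfold ho
      have : (Polynomial.X ^ 0 * (Polynomial.X * qq 0) : Polynomial RR) = Polynomial.X ^ 1 := by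
        rw [qq_zero]; ring
      rw [this, LL_X_pow, constantCoeff_mu]
      simp
  | succ j ih =>
    obtain ⟨hA, hB, hU, hV⟩ := ih
    have hf : (j.factorial : ℚ) ≠ 0 := by exact_mod_cast Nat.factorial_ne_zero j
    have hU0 : PowerSeries.constantCoeff (he j) ≠ 0 := by rw [hU]; positivity
    have hV0 : PowerSeries.constantCoeff (ho j) ≠ 0 := by rw [hV]; positivity
    have hA' : ∀ i < j + 1, LL (Polynomial.X ^ i * pp (j + 1)) = 0 := by
      intro i hi
      have e : Polynomial.X ^ i * pp (j + 1) = Polynomial.X ^ i * (Polynomial.X * qq j) -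
          Polynomial.C (ho j * (he j)⁻¹) * (Polynomial.X ^ i * pp j) := by
        rw [pp_succ]; ring
      rw [e, map_sub, LL_C_mul]
      rcases Nat.lt_or_eq_of_le (Nat.lt_succ_iff.1 hi) with h | h
      · rw [hA i h, hB i h, mul_zero, sub_zero]
      · subst h
        change ho i - ho i * (he i)⁻¹ * he i = 0
        rw [mul_assoc, PowerSeries.inv_mul_cancel _ hU0, mul_one, sub_self]
    have hB' : ∀ i < j + 1, LL (Polynomial.X ^ i * (Polynomial.X * qq (j + 1))) = 0 := by
      intro i hi
      have e : Polynomial.X ^ i * (Polynomial.X * qq (j + 1)) =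
          Polynomial.X ^ (i + 1) * pp (j + 1) -
          Polynomial.C (he (j + 1) * (ho j)⁻¹) * (Polynomial.X ^ i * (Polynomial.X * qq j)) := by
        rw [qq_succ]; ring
      rw [e, map_sub, LL_C_mul]
      rcases Nat.lt_or_eq_of_le (Nat.lt_succ_iff.1 hi) with h | h
      · rw [hA' (i + 1) (by omega), hB i h, mul_zero, sub_zero]
      · subst h
        change he (i + 1) - he (i + 1) * (ho i)⁻¹ * ho i = 0
        rw [mul_assoc, PowerSeries.inv_mul_cancel _ hV0, mul_one, sub_self]
    have hU' : PowerSeries.constantCoeff (he (j + 1)) = ((j + 1).factorial : ℚ) ^ 2 := by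
      have h := congrArg PowerSeries.constantCoeff (pearson_even j hA' hB)
      rw [map_mul, map_sub, map_mul, PowerSeries.constantCoeff_X, zero_mul, sub_zero, hV,
        map_natCast] at h
      rw [← h, Nat.factorial_succ]
      push_cast
      ring
    refine ⟨hA', hB', hU', ?_⟩
    have h := congrArg PowerSeries.constantCoeff (pearson_odd (j + 1) hA' hB')
    rw [map_mul, map_sub, map_mul, PowerSeries.constantCoeff_X, zero_mul, sub_zero, hU',
      map_natCast] at h
    rw [← h]
    push_cast
    ring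

lemma pp_low (j : ℕ) : ∀ i < j, LL (Polynomial.X ^ i * pp j) = 0 := (op_main j).1

lemma qq_low (j : ℕ) : ∀ i < j, LL (Polynomial.X ^ i * (Polynomial.X * qq j)) = 0 :=
  (op_main j).2.1

lemma he_const (j : ℕ) : PowerSeries.constantCoeff (he j) = (j.factorial : ℚ) ^ 2 :=
  (op_main j).2.2.1

lemma he_ne (j : ℕ) : PowerSeries.constantCoeff (he j) ≠ 0 := by
  have hf : (j.factorial : ℚ) ≠ 0 := by exact_mod_cast Nat.factorial_ne_zero j
  rw [he_const]; positivity

lemma ho_ne (j : ℕ) : PowerSeries.constantCoeff (ho j) ≠ 0 := by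
  have hf : (j.factorial : ℚ) ≠ 0 := by exact_mod_cast Nat.factorial_ne_zero j
  rw [(op_main j).2.2.2]; positivity

/-- The recurrence coefficients. -/
noncomputable def rr (k : ℕ) : RR :=
  if k = 0 then 0 else if k % 2 = 0 then he (k / 2) * (ho (k / 2 - 1))⁻¹
    else ho (k / 2) * (he (k / 2))⁻¹

lemma rr_zero : rr 0 = 0 := by simp [rr]

lemma rr_odd (j : ℕ) : rr (2 * j + 1) = ho j * (he j)⁻¹ := by
  unfold rr
  rw [if_neg (by omega), if_neg (by omega), show (2 * j + 1) / 2 = j by omega]

lemma rr_even (j : ℕ) : rr (2 * j + 2) = he (j + 1) * (ho j)⁻¹ := by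
  unfold rr
  rw [if_neg (by omega), if_pos (by omega), show (2 * j + 2) / 2 = j + 1 by omega,
    Nat.add_sub_cancel]

lemma rr_odd_mul (j : ℕ) : rr (2 * j + 1) * he j = ho j := by
  rw [rr_odd, mul_assoc, PowerSeries.inv_mul_cancel _ (he_ne j), mul_one]

lemma rr_even_mul (j : ℕ) : rr (2 * j + 2) * ho j = he (j + 1) := by
  rw [rr_even, mul_assoc, PowerSeries.inv_mul_cancel _ (ho_ne j), mul_one]

lemma pp_rec (j : ℕ) : Polynomial.X * qq j = pp (j + 1) + Polynomial.C (rr (2 * j + 1)) * pp j := by
  rw [pp_succ, rr_odd]; ring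

lemma qq_rec (j : ℕ) : pp (j + 1) = qq (j + 1) + Polynomial.C (rr (2 * j + 2)) * qq j := by
  rw [qq_succ, rr_even]; ring

lemma pp_coeff (j : ℕ) : (pp j).coeff j = 1 := by
  have := pp_monic j
  unfold Polynomial.Monic Polynomial.leadingCoeff at this
  rwa [pp_deg] at this

lemma qq_coeff (j : ℕ) : (qq j).coeff j = 1 := by
  have := qq_monic j
  unfold Polynomial.Monic Polynomial.leadingCoeff at this
  rwa [qq_deg] at this

lemma pair_pp (f : Polynomial RR) (j : ℕ) (hf : f.natDegree ≤ j) :
    LL (f * pp j) = f.coeff j * he j := pair_low _ j (pp_low j) f hf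

lemma pair_qq (f : Polynomial RR) (j : ℕ) (hf : f.natDegree ≤ j) :
    LL (f * (Polynomial.X * qq j)) = f.coeff j * ho j := pair_low _ j (qq_low j) f hf

lemma xqq_deg (j : ℕ) : (Polynomial.X * qq j).natDegree = j + 1 := by
  rw [Polynomial.monic_X.natDegree_mul (qq_monic j), Polynomial.natDegree_X, qq_deg, add_comm]

lemma xpp_deg (j : ℕ) : (Polynomial.X * pp j).natDegree = j + 1 := by
  rw [Polynomial.monic_X.natDegree_mul (pp_monic j), Polynomial.natDegree_X, pp_deg, add_comm]

/-- The second moment of `pp j` with weight `x`. -/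
lemma x_pp_pp (j : ℕ) : LL (Polynomial.X * pp j * pp j) =
    (rr (2 * j + 1) + rr (2 * j)) * he j := by
  cases j with
  | zero =>
    have e : Polynomial.X * pp 0 * pp 0 = pp 0 * (Polynomial.X * qq 0) := by
      rw [pp_zero, qq_zero]; ring
    rw [e, pair_qq _ 0 (pp_deg 0).le, pp_coeff, one_mul, mul_zero, rr_zero, add_zero]
    exact (rr_odd_mul 0).symm
  | succ i =>
    have e : Polynomial.X * pp (i + 1) * pp (i + 1) = pp (i + 1) * (Polynomial.X * qq (i + 1)) +
        Polynomial.C (rr (2 * i + 2)) * ((Polynomial.X * qq i) * pp (i + 1)) := by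
      have := qq_rec i
      linear_combination (Polynomial.X * pp (i + 1)) * this
    rw [e, map_add, LL_C_mul, pair_qq _ (i + 1) (pp_deg (i + 1)).le, pp_coeff, one_mul,
      pair_pp _ (i + 1) (xqq_deg i).le, Polynomial.coeff_X_mul, qq_coeff, one_mul,
      ← rr_odd_mul (i + 1), show 2 * (i + 1) = 2 * i + 2 by ring]
    ring

lemma x_pp_pp_succ (j : ℕ) : LL (Polynomial.X * pp j * pp (j + 1)) = he (j + 1) := by
  rw [pair_pp _ (j + 1) (xpp_deg j).le, Polynomial.coeff_X_mul, pp_coeff, one_mul]

lemma string_odd (j : ℕ) : rr (2 * j + 1) = ((j + 1 : ℕ) : RR) +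
    PowerSeries.X * (rr (2 * j + 1) * (rr (2 * j + 2) + rr (2 * j + 1) + rr (2 * j))) := by
  have h := pearson_odd j (pp_low j) (qq_low j)
  have e : Polynomial.X ^ 2 * (qq j * pp j) = Polynomial.X * pp j * pp (j + 1) +
      Polynomial.C (rr (2 * j + 1)) * (Polynomial.X * pp j * pp j) := by
    have := pp_rec j
    linear_combination (Polynomial.X * pp j) * this
  rw [e, map_add, LL_C_mul, x_pp_pp, x_pp_pp_succ, ← rr_even_mul j, ← rr_odd_mul j] at h
  have h2 := PowerSeries.mul_inv_cancel _ (he_ne j)
  linear_combination (-(he j)⁻¹) * h + (((j + 1 : ℕ) : RR) - rr (2 * j + 1) +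
    PowerSeries.X * (rr (2 * j + 1) * (rr (2 * j + 2) + rr (2 * j + 1) + rr (2 * j)))) * h2

lemma string_even (j : ℕ) : rr (2 * j + 2) = ((j + 1 : ℕ) : RR) +
    PowerSeries.X * (rr (2 * j + 2) * (rr (2 * j + 3) + rr (2 * j + 2) + rr (2 * j + 1))) := by
  have h := pearson_even j (pp_low (j + 1)) (qq_low j)
  have e : Polynomial.X ^ 2 * (qq j * pp (j + 1)) = Polynomial.X * pp (j + 1) * pp (j + 1) +
      Polynomial.C (rr (2 * j + 1)) * (Polynomial.X * pp j * pp (j + 1)) := by
    have := pp_rec j
    linear_combination (Polynomial.X * pp (j + 1)) * this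
  have h3 : 2 * (j + 1) + 1 = 2 * j + 3 := by ring
  have h4 : 2 * (j + 1) = 2 * j + 2 := by ring
  rw [e, map_add, LL_C_mul, x_pp_pp, x_pp_pp_succ, h3, h4, ← rr_even_mul j] at h
  have h2 := PowerSeries.mul_inv_cancel _ (ho_ne j)
  linear_combination (-(ho j)⁻¹) * h + (((j + 1 : ℕ) : RR) - rr (2 * j + 2) +
    PowerSeries.X * (rr (2 * j + 2) * (rr (2 * j + 3) + rr (2 * j + 2) + rr (2 * j + 1)))) * h2

lemma string_rr (k : ℕ) : rr (k + 1) = (((k + 2) / 2 : ℕ) : RR) +
    PowerSeries.X * (rr (k + 1) * (rr (k + 2) + rr (k + 1) + rr k)) := by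
  rcases Nat.even_or_odd' k with ⟨j, rfl | rfl⟩
  · have := string_odd j
    rw [show (2 * j + 2) / 2 = j + 1 by omega]
    exact this
  · have := string_even j
    rw [show (2 * j + 1 + 2) / 2 = j + 1 by omega]
    exact this

/-- Uniqueness for the string equation. -/
lemma rr_eq_rs (k : ℕ) : rr k = rs k := by
  have key : ∀ n k, PowerSeries.coeff n (rr k) = rc n k := by
    intro n
    induction n using Nat.strong_induction_on with
    | _ n ih =>
      intro k
      cases k with
      | zero =>
        rw [rr_zero, map_zero]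
        cases n with
        | zero => simp [rc]
        | succ n => simp [rc]
      | succ k =>
        rw [string_rr]
        have hc : (((k + 2) / 2 : ℕ) : RR) = PowerSeries.C (((k + 2) / 2 : ℕ) : ℚ) := by simp
        cases n with
        | zero =>
          rw [rc, map_add, PowerSeries.coeff_zero_X_mul, hc, PowerSeries.coeff_zero_C, add_zero]
        | succ n =>
          rw [rc, map_add, PowerSeries.coeff_succ_X_mul, PowerSeries.coeff_mul, hc,
            PowerSeries.coeff_C, if_neg (Nat.succ_ne_zero n), zero_add,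
            Finset.Nat.sum_antidiagonal_eq_sum_range_succ_mk,
            ← Fin.sum_univ_eq_sum_range (fun i => PowerSeries.coeff i (rr (k + 1)) *
              PowerSeries.coeff (n - i) (rr (k + 2) + rr (k + 1) + rr k))]
          refine Finset.sum_congr rfl fun i _ => ?_
          have h1 : (i : ℕ) < n + 1 := i.isLt
          have h2 : n - (i : ℕ) < n + 1 := by omega
          rw [map_add, map_add, ih _ h1, ih _ h2, ih _ h2, ih _ h2]
  ext n
  rw [key, rs, PowerSeries.coeff_mk]

end Pool.Agent.H80.Quad
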